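import Pool.Agent.KS6_43.DA.Osc
import Pool.Agent.KS6_43.DA.Low

/-!
# Continua in complements of codimension-two sets, in every dimension
-/

set_option autoImplicit false

namespace Pool.Agent.Results.MP_da03b0_gt.AllDimensions

open Set Topology Filter Metric Function
open Pool.Agent.KS6_43.DA (CovDimLE)

section coords

variable {n : ℕ}

/-- the point with horizontal part `v` and height `z` -/
noncomputable def pt (v : Fin n → ℝ) (z : ℝ) : EuclideanSpace ℝ (Fin (n + 1)) :=
  WithLp.toLp 2 (Fin.snoc (α := fun _ => ℝ) v z)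

/-- the horizontal part -/
def hp (x : EuclideanSpace ℝ (Fin (n + 1))) : Fin n → ℝ := fun i => x i.castSucc

@[simp] lemma pt_last (v : Fin n → ℝ) (z : ℝ) : pt v z (Fin.last n) = z := by
  simp [pt]

@[simp] lemma pt_castSucc (v : Fin n → ℝ) (z : ℝ) (i : Fin n) : pt v z i.castSucc = v i := by
  simp [pt]

lemma pt_hp (x : EuclideanSpace ℝ (Fin (n + 1))) : pt (hp x) (x (Fin.last n)) = x := by
  ext i
  refine Fin.lastCases ?_ (fun i => ?_) i
  · simp
  · simp [hp]

lemma pt_cont : Continuous fun p : (Fin n → ℝ) × ℝ => pt p.1 p.2 :=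
  (PiLp.continuous_toLp 2 _).comp
    (Continuous.finSnoc (A := fun _ => ℝ) (f := Prod.fst) (g := Prod.snd)
      continuous_fst continuous_snd)

lemma hp_cont : Continuous (hp : EuclideanSpace ℝ (Fin (n + 1)) → Fin n → ℝ) :=
  continuous_pi fun i => by unfold hp; fun_prop

open Matrix in
/-- the Vandermonde matrices with nodes `m n, m n + 1, …, m n + n - 1` -/
noncomputable def M (m : Fin n) : Matrix (Fin n) (Fin n) ℝ :=
  Matrix.vandermonde fun i : Fin n => ((m.val * n + i.val : ℕ) : ℝ)

lemma node_inj {m m' i i' : Fin n} (h : m.val * n + i.val = m'.val * n + i'.val) :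
    m = m' ∧ i = i' := by
  have h1 : (m.val * n + i.val) / n = (m'.val * n + i'.val) / n := by rw [h]
  have hn : 0 < n := m.pos
  rw [Nat.mul_comm, Nat.mul_add_div hn, Nat.mul_comm, Nat.mul_add_div hn,
    Nat.div_eq_of_lt i.2, Nat.div_eq_of_lt i'.2] at h1
  have h2 : m = m' := Fin.ext (by simpa using h1)
  subst h2
  exact ⟨rfl, Fin.ext (by omega)⟩

lemma M_unit (m : Fin n) : IsUnit (M m).det := by
  rw [isUnit_iff_ne_zero]
  refine Matrix.det_vandermonde_ne_zero_iff.2 fun i i' h => ?_
  exact (node_inj (m := m) (m' := m) (by exact_mod_cast h)).2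

open Matrix in
/-- the coordinates -/
noncomputable def T (φ : ℝ → Fin n → ℝ) (m : Fin n) (x : EuclideanSpace ℝ (Fin (n + 1))) :
    Fin (n + 1) → ℝ :=
  Fin.snoc (α := fun _ => ℝ) (M m *ᵥ (hp x - φ (x (Fin.last n)))) (x (Fin.last n))

lemma T_last (φ : ℝ → Fin n → ℝ) (m : Fin n) (x : EuclideanSpace ℝ (Fin (n + 1))) :
    T φ m x (Fin.last n) = x (Fin.last n) := by simp [T]

open Matrix in
lemma T_castSucc (φ : ℝ → Fin n → ℝ) (m : Fin n) (x : EuclideanSpace ℝ (Fin (n + 1))) (i : Fin n) :
    T φ m x i.castSucc = (M m *ᵥ (hp x - φ (x (Fin.last n)))) i := by simp [T]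

open Matrix in
lemma T_inducing {φ : ℝ → Fin n → ℝ} (c : ContinuousOn φ {z | Irrational z}) (m : Fin n) :
    IsInducing fun x : {x | ∀ i, Irrational (T φ m x i)} => T φ m x := by
  have hl : ∀ x : {x | ∀ i, Irrational (T φ m x i)}, Irrational (x.1 (Fin.last n)) := fun x => by
    have := x.2 (Fin.last n)
    rwa [T_last] at this
  have a : Continuous fun x : {x | ∀ i, Irrational (T φ m x i)} => φ (x.1 (Fin.last n)) :=
    c.comp_continuous (by fun_prop) hl
  have b : Continuous fun y : {y : Fin (n + 1) → ℝ // Irrational (y (Fin.last n))} =>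
      φ (y.1 (Fin.last n)) :=
    c.comp_continuous ((continuous_apply (Fin.last n)).comp continuous_subtype_val) fun x => x.2
  have e1 : Continuous fun x : {x | ∀ i, Irrational (T φ m x i)} => T φ m x := by
    have h1 : Continuous fun x : {x | ∀ i, Irrational (T φ m x i)} => hp x.1 :=
      hp_cont.comp continuous_subtype_val
    have h2 : Continuous fun x : {x | ∀ i, Irrational (T φ m x i)} =>
        M m *ᵥ (hp x.1 - φ (x.1 (Fin.last n))) :=
      Continuous.matrix_mulVec continuous_const (h1.sub a)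
    exact h2.finSnoc (by fun_prop)
  refine IsInducing.subtypeVal.comp (f := fun x : {x | ∀ i, Irrational (T φ m x i)} =>
    (⟨T φ m x, x.2 (Fin.last n)⟩ : {y : Fin (n + 1) → ℝ // Irrational (y (Fin.last n))}))
    (.of_comp (g := fun y => pt ((M m)⁻¹ *ᵥ (fun i : Fin n => y.1 i.castSucc) +
      φ (y.1 (Fin.last n))) (y.1 (Fin.last n))) (e1.subtype_mk _) ?_ ?_)
  · refine pt_cont.comp (Continuous.prodMk (Continuous.add (Continuous.matrix_mulVec
      continuous_const (continuous_pi fun i => (continuous_apply _).comp continuous_subtype_val)) b)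
      ((continuous_apply _).comp continuous_subtype_val))
  · convert (IsInducing.subtypeVal : IsInducing (Subtype.val :
      {x | ∀ i, Irrational (T φ m x i)} → EuclideanSpace ℝ (Fin (n + 1)))) using 1
    funext x
    change pt ((M m)⁻¹ *ᵥ (fun i : Fin n => T φ m x.1 i.castSucc) +
      φ (T φ m x.1 (Fin.last n))) (T φ m x.1 (Fin.last n)) = x.1
    rw [T_last]
    have h1 : (fun i : Fin n => T φ m x.1 i.castSucc) = M m *ᵥ (hp x.1 - φ (x.1 (Fin.last n))) :=
      funext fun i => T_castSucc _ _ _ _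
    rw [h1, Matrix.mulVec_mulVec, Matrix.nonsing_inv_mul _ (M_unit m), Matrix.one_mulVec,
      sub_add_cancel, pt_hp]

open Matrix in
/-- a vector with one rational coordinate in each of the `n` systems is rational -/
lemma rational (u : Fin n → ℝ) (h : ∀ m, ∃ i, ¬ Irrational ((M m *ᵥ u) i)) :
    ∃ s : Fin n → ℚ, ∀ i, u i = s i := by
  choose i hi using h
  have hi' : ∀ m, ∃ b : ℚ, (b : ℝ) = (M m *ᵥ u) (i m) := fun m => by
    have := hi m
    rw [Irrational, not_not] at this
    exact this
  choose b hb using hi'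
  let Nq : Matrix (Fin n) (Fin n) ℚ :=
    Matrix.vandermonde fun m : Fin n => ((m.val * n + (i m).val : ℕ) : ℚ)
  have hq : IsUnit Nq.det := by
    rw [isUnit_iff_ne_zero]
    refine Matrix.det_vandermonde_ne_zero_iff.2 fun m m' h => ?_
    exact (node_inj (by exact_mod_cast h)).1
  have hs : Nq *ᵥ (Nq⁻¹ *ᵥ b) = b := by
    rw [Matrix.mulVec_mulVec, Matrix.mul_nonsing_inv _ hq, Matrix.one_mulVec]
  let N : Matrix (Fin n) (Fin n) ℝ :=
    Matrix.vandermonde fun m : Fin n => ((m.val * n + (i m).val : ℕ) : ℝ)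
  have hN : IsUnit N.det := by
    rw [isUnit_iff_ne_zero]
    refine Matrix.det_vandermonde_ne_zero_iff.2 fun m m' h => ?_
    exact (node_inj (by exact_mod_cast h)).1
  have h1 : N *ᵥ u = N *ᵥ (fun l => ((Nq⁻¹ *ᵥ b) l : ℝ)) := by
    funext m
    have e1 : (N *ᵥ u) m = (M m *ᵥ u) (i m) := by
      simp only [N, M, Matrix.mulVec, dotProduct, Matrix.vandermonde_apply]
    have e2 : (N *ᵥ (fun l => ((Nq⁻¹ *ᵥ b) l : ℝ))) m = (((Nq *ᵥ (Nq⁻¹ *ᵥ b)) m : ℚ) : ℝ) := by
      simp only [N, Nq, Matrix.mulVec, dotProduct, Matrix.vandermonde_apply]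
      push_cast
      rfl
    rw [e1, e2, hs, hb]
  have h2 : u = fun l => ((Nq⁻¹ *ᵥ b) l : ℝ) := by
    have := congrArg (fun v => N⁻¹ *ᵥ v) h1
    simpa only [Matrix.mulVec_mulVec, Matrix.nonsing_inv_mul _ hN, Matrix.one_mulVec] using this
  exact ⟨fun l => (Nq⁻¹ *ᵥ b) l, fun l => congrFun h2 l⟩

end coords

/-- **Q1 in every dimension.** For every `n ≥ 1` there is a set `A ⊆ ℝⁿ⁺¹` of dimension at most
`n - 1`, missing all the points with a rational last coordinate, such that every closed connected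
subset `C` of the complement of `A` which contains two points with different last coordinates
contains an `n`-dimensional cube (in a hyperplane) and so does not have dimension at most `n - 1`.
For `n ≥ 2` no two such points are joined by a continuum of dimension `1` in the complement. -/
theorem result (n : ℕ) (hn : 1 ≤ n) :
    ∃ A : Set (EuclideanSpace ℝ (Fin (n + 1))), CovDimLE A (n - 1) ∧
      (∀ x : EuclideanSpace ℝ (Fin (n + 1)), (∃ q : ℚ, x (Fin.last n) = q) → x ∉ A) ∧
      ∀ C : Set (EuclideanSpace ℝ (Fin (n + 1))), IsClosed C → IsPreconnected C → C ⊆ Aᶜ →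
        ∀ x ∈ C, ∀ y ∈ C, x (Fin.last n) ≠ y (Fin.last n) →
          (∃ (c : Fin n → ℝ) (q r : ℝ), 0 < r ∧ ∀ w : EuclideanSpace ℝ (Fin (n + 1)),
            w (Fin.last n) = q → (∀ i : Fin n, |w i.castSucc - c i| ≤ r) → w ∈ C) ∧
          ¬ CovDimLE C (n - 1) := by
  classical
  obtain ⟨φ, c, k⟩ := Pool.Agent.KS6_43.DA.osc n
  refine ⟨⋃ m, {x | ∀ i, Irrational (T φ m x i)}, ?_, ?_, ?_⟩
  · intro 𝒰 o s
    choose V v1 v2 v3 v4 using fun m => Pool.Agent.KS6_43.DA.zd (T_inducing c m) (fun y => y.2)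
      (𝒰 : Set (Set (EuclideanSpace ℝ (Fin (n + 1))))) o
      ((subset_iUnion (fun m => {x | ∀ i, Irrational (T φ m x i)}) m).trans s)
    refine ⟨Finset.univ.biUnion fun m => 𝒰.image (V m), ?_, fun z a => ?_, fun z _ => ?_⟩
    · simp only [Finset.mem_biUnion, Finset.mem_univ, true_and, Finset.mem_image]
      rintro _ ⟨m, U, a, rfl⟩
      exact ⟨v1 m U a, U, a, inter_subset_left.trans (v2 m U)⟩
    · obtain ⟨m, a⟩ := mem_iUnion.1 a
      obtain ⟨U, b, d⟩ := v3 m z a
      exact ⟨V m U, Finset.mem_coe.2 (Finset.mem_biUnion.2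
        ⟨m, Finset.mem_univ _, Finset.mem_image_of_mem _ b⟩), d⟩
    · have h1 : {W | W ∈ (Finset.univ.biUnion fun m => 𝒰.image (V m)) ∧ z ∈ W} ⊆
          (Finset.univ.image fun m => (if h : ∃ U ∈ 𝒰, z ∈ V m U then V m h.choose else ∅) :
            Finset (Set (EuclideanSpace ℝ (Fin (n + 1))))) := by
        rintro W ⟨hW, hz⟩
        simp only [Finset.mem_biUnion, Finset.mem_univ, true_and, Finset.mem_image] at hW
        obtain ⟨m, U, hU, rfl⟩ := hW
        simp only [Finset.coe_image, Finset.coe_univ, image_univ, mem_range]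
        have h2 : ∃ U ∈ 𝒰, z ∈ V m U := ⟨U, hU, hz⟩
        refine ⟨m, ?_⟩
        rw [dif_pos h2, v4 m z _ _ h2.choose_spec.2 hz]
      refine (ncard_le_ncard h1 (Finset.finite_toSet _)).trans ?_
      rw [ncard_coe_finset]
      refine Finset.card_image_le.trans ?_
      simp only [Finset.card_univ, Fintype.card_fin]
      omega
  · rintro x ⟨q, hq⟩ hx
    obtain ⟨m, hm⟩ := mem_iUnion.1 hx
    have := hm (Fin.last n)
    rw [T_last, hq] at this
    exact this ⟨q, rfl⟩
  intro C c1 c2 c5 x0 c3 y0 c4 hne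
  -- the sets of heights
  let E : (Fin n → ℚ) → Set ℝ := fun a => {z | Irrational z ∧ pt ((fun i => (a i : ℝ)) + φ z) z ∈ C}
  obtain ⟨a, z, h⟩ : ∃ a, (interior (closure (E a))).Nonempty := by
    by_contra! h
    obtain ⟨z, ⟨x, y⟩, w⟩ := (dense_of_mem_residual (eventually_residual_irrational.and
      (eventually_countable_forall.2 fun a => residual_of_dense_open isClosed_closure.isOpen_compl
        (interior_eq_empty_iff_dense_compl.1 (h a))))).exists_mem_open
          (isOpen_Ioo (a := min (x0 (Fin.last n)) (y0 (Fin.last n)))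
            (b := max (x0 (Fin.last n)) (y0 (Fin.last n))))
          (nonempty_Ioo.2 (min_lt_max.2 hne))
    obtain ⟨p, u, rfl⟩ : ∃ p ∈ C, p (Fin.last n) = z := by
      have hf : ContinuousOn (fun p : EuclideanSpace ℝ (Fin (n + 1)) => p (Fin.last n)) C := by
        fun_prop
      rcases le_total (x0 (Fin.last n)) (y0 (Fin.last n)) with hle | hle
      · rw [min_eq_left hle, max_eq_right hle] at w
        exact c2.intermediate_value c3 c4 hf (Ioo_subset_Icc_self w)
      · rw [min_eq_right hle, max_eq_left hle] at w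
        exact c2.intermediate_value c4 c3 hf (Ioo_subset_Icc_self w)
    have v := c5 u
    simp only [mem_compl_iff, mem_iUnion, not_exists] at v
    obtain ⟨s, hs⟩ := rational (hp p - φ (p (Fin.last n))) fun m => by
      have h1 : ¬ ∀ i, Irrational (T φ m p i) := v m
      push Not at h1
      obtain ⟨i, hi⟩ := h1
      revert hi
      refine Fin.lastCases (fun hi => ?_) (fun i hi => ?_) i
      · rw [T_last] at hi; exact absurd x hi
      · rw [T_castSucc] at hi; exact ⟨i, hi⟩
    refine y s (subset_closure ⟨x, ?_⟩)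
    convert u using 1
    conv_rhs => rw [← pt_hp p]
    congr 1
    funext i
    have := hs i
    simp only [Pi.sub_apply] at this
    simp only [Pi.add_apply]
    linarith
  obtain ⟨q, h⟩ := Rat.denseRange_cast.exists_mem_open isOpen_interior ⟨z, h⟩
  obtain ⟨d, r, r0, w⟩ := k q (E a) (fun _ => And.left) (mem_interior_iff_mem_nhds.1 h)
  have key : ∀ u : Fin n → ℝ, ‖u‖ ≤ 1 → pt ((fun i => (a i : ℝ)) + (d + r • u)) q ∈ C := by
    intro u v
    obtain ⟨F, _, f1, f2⟩ := w u v
    exact c1.mem_of_tendsto (((show Continuous fun p : (Fin n → ℝ) × ℝ =>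
      pt ((fun i => (a i : ℝ)) + p.1) p.2 from pt_cont.comp
        ((continuous_const.add continuous_fst).prodMk continuous_snd)).tendsto _).comp
        (f2.prodMk_nhds (f1.trans nhdsWithin_le_nhds)))
      (f1 (mem_of_superset self_mem_nhdsWithin fun _ => And.right))
  refine ⟨⟨(fun i => (a i : ℝ)) + d, q, r, r0, fun p hp1 hp2 => ?_⟩, ?_⟩
  · have h1 := key (fun i => (p i.castSucc - (a i + d i)) / r) (by
      refine (pi_norm_le_iff_of_nonneg zero_le_one).2 fun i => ?_
      rw [Real.norm_eq_abs, abs_div, abs_of_pos r0, div_le_one r0]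
      exact hp2 i)
    convert h1 using 1
    conv_lhs => rw [← pt_hp p]
    rw [hp1]
    congr 1
    funext i
    simp only [Pi.add_apply, Pi.smul_apply, smul_eq_mul, hp]
    field_simp
    ring
  · refine Pool.Agent.KS6_43.DA.low (by omega) (j := fun w => pt ((fun i => (a i : ℝ)) + (d + r • w)) q)
      (π := fun x => fun i => (x i.castSucc - a i - d i) / r) ?_ ?_ (fun w => ?_) key
    · exact pt_cont.comp ((by fun_prop : Continuous fun w : Fin n → ℝ =>
        (fun i => (a i : ℝ)) + (d + r • w)).prodMk continuous_const)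
    · fun_prop
    · funext i
      simp only [pt_castSucc, Pi.add_apply, Pi.smul_apply, smul_eq_mul]
      field_simp
      ring

end Pool.Agent.Results.MP_da03b0_gt.AllDimensions
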